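import Pool.Agent.H77.PUC.StmtsE

/-! # PUC, modules PFD and PFU -/

universe u

namespace PUC

open Polynomial

theorem PFD_deg {K : Type u} [Field K] (r q : K[X]) (hq : q ≠ 0) (h : r.degree < q.degree) :
    VanInf (algebraMap K[X] (RatFunc K) r / algebraMap K[X] (RatFunc K) q) := by
  set x := algebraMap K[X] (RatFunc K) r / algebraMap K[X] (RatFunc K) q with hx
  have h1 : x.num * q = r * x.denom := (RatFunc.num_mul_eq_mul_denom_iff hq).2 hx
  have h2 : x.num.degree + q.degree = r.degree + x.denom.degree := by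
    rw [← degree_mul, ← degree_mul, h1]
  unfold VanInf
  by_contra h3
  push Not at h3
  have hd : x.denom.degree ≠ ⊥ := by
    rw [Ne, degree_eq_bot]
    exact RatFunc.denom_ne_zero x
  have hqd : q.degree ≠ ⊥ := by
    rw [Ne, degree_eq_bot]
    exact hq
  have h4 : r.degree + x.denom.degree < q.degree + x.denom.degree :=
    WithBot.add_lt_add_right hd h
  have h5 : x.denom.degree + q.degree ≤ x.num.degree + q.degree := by gcongr
  rw [h2, add_comm] at h5
  exact absurd h4 (not_lt.2 h5)

theorem sPfd : SPfd.{u} := by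
  classical
  intro K _ _ b D
  set s := b.denom.roots with hs
  set D1 : K[X] := ((s.filter (fun a => a ∈ D)).map fun a => X - C a).prod with hD1
  set D2 : K[X] := ((s.filter (fun a => ¬ a ∈ D)).map fun a => X - C a).prod with hD2
  have hm : b.denom.Monic := RatFunc.monic_denom b
  have hprod : b.denom = D1 * D2 := by
    have h1 : b.denom = (s.map fun a => X - C a).prod :=
      (IsAlgClosed.splits b.denom).eq_prod_roots_of_monic hm
    rw [hD1, hD2, ← Multiset.prod_add, ← Multiset.map_add, Multiset.filter_add_not]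
    exact h1
  have e1 : ∀ a, D1.eval a = 0 → a ∈ D := by
    intro a ha
    rw [hD1, eval_multiset_prod, Multiset.prod_eq_zero_iff, Multiset.map_map,
      Multiset.mem_map] at ha
    obtain ⟨c, hc, hc'⟩ := ha
    simp only [Function.comp_apply, eval_sub, eval_X, eval_C, sub_eq_zero] at hc'
    rw [hc']
    exact (Multiset.mem_filter.1 hc).2
  have e2 : ∀ a, D2.eval a = 0 → a ∉ D := by
    intro a ha
    rw [hD2, eval_multiset_prod, Multiset.prod_eq_zero_iff, Multiset.map_map,
      Multiset.mem_map] at ha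
    obtain ⟨c, hc, hc'⟩ := ha
    simp only [Function.comp_apply, eval_sub, eval_X, eval_C, sub_eq_zero] at hc'
    rw [hc']
    exact (Multiset.mem_filter.1 hc).2
  have hcop : IsCoprime D1 D2 := by
    rw [isCoprime_iff_aeval_ne_zero_of_isAlgClosed K K]
    intro a
    by_contra h
    push Not at h
    rw [coe_aeval_eq_eval] at h
    exact e2 a h.2 (e1 a h.1)
  obtain ⟨v, u, huv⟩ := hcop
  -- `v * D1 + u * D2 = 1`
  have hM1 : D1.Monic := monic_multiset_prod_of_monic _ _ fun a _ => monic_X_sub_C a
  have hM2 : D2.Monic := monic_multiset_prod_of_monic _ _ fun a _ => monic_X_sub_C a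
  have h10 : algebraMap K[X] (RatFunc K) D1 ≠ 0 := RatFunc.algebraMap_ne_zero hM1.ne_zero
  have h20 : algebraMap K[X] (RatFunc K) D2 ≠ 0 := RatFunc.algebraMap_ne_zero hM2.ne_zero
  set N := b.num with hN
  set r := (N * u) %ₘ D1 with hr
  set q := (N * u) /ₘ D1 with hq
  have hdiv : r + D1 * q = N * u := modByMonic_add_div (N * u) D1
  refine ⟨algebraMap K[X] (RatFunc K) r / algebraMap K[X] (RatFunc K) D1,
    algebraMap K[X] (RatFunc K) (q * D2 + N * v) / algebraMap K[X] (RatFunc K) D2, ?_, ?_, ?_, ?_⟩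
  · rw [div_add_div _ _ h10 h20, ← map_mul, ← map_mul, ← map_add, ← map_mul, ← hprod]
    have e : r * D2 + D1 * (q * D2 + N * v) = N := by
      calc r * D2 + D1 * (q * D2 + N * v) = (r + D1 * q) * D2 + N * (v * D1) := by ring
        _ = N * (v * D1 + u * D2) := by rw [hdiv]; ring
        _ = N := by rw [huv, mul_one]
    rw [e, hN]
    exact (RatFunc.num_div_denom b).symm
  · exact PFD_deg _ _ hM1.ne_zero (degree_modByMonic_lt _ hM1)
  · intro a ha h0
    apply ha
    apply e1
    obtain ⟨c, hc⟩ := RatFunc.denom_div_dvd r D1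
    rw [hc, eval_mul, h0, zero_mul]
  · intro a ha h0
    apply e2 a _ ha
    obtain ⟨c, hc⟩ := RatFunc.denom_div_dvd (q * D2 + N * v) D2
    rw [hc, eval_mul, h0, zero_mul]

theorem PFD_denom_neg {K : Type u} [Field K] (x : RatFunc K) : (-x).denom ∣ x.denom := by
  have h : -x = algebraMap K[X] (RatFunc K) (-x.num) / algebraMap K[X] (RatFunc K) x.denom := by
    rw [map_neg, neg_div, RatFunc.num_div_denom]
  conv_lhs => rw [h]
  exact RatFunc.denom_div_dvd _ _

theorem sPfu : SPfu.{u} := by
  intro K _ _ D b1 b2 hV h1 h2 hsum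
  have hb2 : b2 = -b1 := by
    rw [add_comm] at hsum
    exact eq_neg_of_add_eq_zero_left hsum
  have hb1 : b1 = -b2 := by rw [hb2, neg_neg]
  have hno : ∀ a, b1.denom.eval a ≠ 0 := by
    intro a
    by_cases ha : a ∈ D
    · intro h0
      apply h2 a ha
      have h3 : b1.denom ∣ b2.denom := by
        conv_lhs => rw [hb1]
        exact PFD_denom_neg b2
      obtain ⟨c, hc⟩ := h3
      rw [hc, eval_mul, h0, zero_mul]
    · exact h1 a ha
  have hd : b1.denom.degree = 0 := by
    by_contra h0
    obtain ⟨a, ha⟩ := IsAlgClosed.exists_root b1.denom h0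
    exact hno a ha
  have hn : b1.num = 0 := by
    unfold VanInf at hV
    rw [hd] at hV
    by_contra h0
    exact absurd hV (not_lt.2 (zero_le_degree_iff.2 h0))
  have hz : b1 = 0 := RatFunc.num_eq_zero_iff.1 hn
  exact ⟨hz, by rw [hb2, hz, neg_zero]⟩

end PUC
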