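import Pool.Agent.H77.PUC.StmtsE

/-! # PUC, modules ZER and GRO -/

universe u

namespace PUC

open Polynomial

section
variable {K Ω : Type u} [Field K] [Field Ω] [Algebra K Ω]
  [Algebra (RatFunc K) Ω] [IsScalarTower K (RatFunc K) Ω]

/-- the embedding of the polynomials in `z` -/
noncomputable def ZER_phi (K Ω : Type u) [Field K] [Field Ω] [Algebra (RatFunc K) Ω] :
    K[X] →+* Ω := (algebraMap (RatFunc K) Ω).comp (algebraMap K[X] (RatFunc K))

theorem ZER_phi_eq (c : K[X]) : ZER_phi K Ω c = aeval (zz K Ω) c := by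
  have h : ZER_phi K Ω = ((aeval (zz K Ω) : K[X] →ₐ[K] Ω) : K[X] →+* Ω) := by
    apply Polynomial.ringHom_ext
    · intro a
      simp only [ZER_phi, RingHom.comp_apply, RingHom.coe_coe, aeval_C]
      rw [IsScalarTower.algebraMap_apply K (RatFunc K) Ω]
      congr 1
    · simp only [ZER_phi, RingHom.comp_apply, RingHom.coe_coe, aeval_X, zz, RatFunc.algebraMap_X]
  rw [h]
  rfl

omit [Algebra K Ω] [IsScalarTower K (RatFunc K) Ω] in
theorem ZER_phi_inj : Function.Injective (ZER_phi K Ω) := by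
  intro x y h
  exact (IsFractionRing.injective K[X] (RatFunc K)) ((algebraMap (RatFunc K) Ω).injective h)

theorem ZER_val (P : Place K Ω) (hz : zz K Ω ∈ P.ring) {f : Ω} (hf : f ∈ P.ring) (p : K[X][X]) :
    p.eval₂ (ZER_phi K Ω) f ∈ P.ring ∧
    P.val (p.eval₂ (ZER_phi K Ω) f) =
      ∑ i ∈ Finset.range (p.natDegree + 1), (p.coeff i).eval (P.val (zz K Ω)) * P.val f ^ i := by
  have h1 : ∀ i, ZER_phi K Ω (p.coeff i) ∈ P.ring := fun i => by
    rw [ZER_phi_eq]
    exact P.aeval_mem hz _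
  have h2 : ∀ i, ZER_phi K Ω (p.coeff i) * f ^ i ∈ P.ring := fun i =>
    P.ring.mul_mem _ _ (h1 i) (P.pow_mem hf i)
  rw [eval₂_eq_sum_range]
  refine ⟨P.sum_mem _ _ fun i _ => h2 i, ?_⟩
  rw [P.val_sum _ _ fun i _ => h2 i]
  refine Finset.sum_congr rfl fun i _ => ?_
  rw [P.val_mul (h1 i) (P.pow_mem hf i), P.val_pow hf, ZER_phi_eq, P.val_aeval hz]

theorem ZER_val0 (P : Place K Ω) (hz : zz K Ω ∈ P.ring) {f : Ω} (hf : f ∈ P.ring)
    (hf0 : P.val f = 0) (p : K[X][X]) :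
    P.val (p.eval₂ (ZER_phi K Ω) f) = (p.coeff 0).eval (P.val (zz K Ω)) := by
  rw [(ZER_val P hz hf p).2, hf0, Finset.sum_eq_single 0]
  · simp
  · intro i _ hi
    rw [zero_pow hi, mul_zero]
  · intro h
    exact absurd (Finset.mem_range.2 (Nat.succ_pos _)) h

/-- a root of a polynomial whose leading coefficient does not vanish at the place is finite -/
theorem ZER_fin (P : Place K Ω) (hz : zz K Ω ∈ P.ring) {f : Ω} (p : K[X][X])
    (h : p.eval₂ (ZER_phi K Ω) f = 0) (hl : p.leadingCoeff.eval (P.val (zz K Ω)) ≠ 0) :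
    f ∈ P.ring := by
  by_contra hf
  have hne : f ≠ 0 := by
    rintro rfl
    exact hf P.ring.zero_mem
  have hi := P.inv_mem_of_not_mem hf
  let _ : Invertible f := invertibleOfNonzero hne
  have h1 : p.reverse.eval₂ (ZER_phi K Ω) f⁻¹ = 0 := by
    have := (eval₂_reverse_eq_zero_iff (ZER_phi K Ω) f p).2 h
    rwa [invOf_eq_inv] at this
  have h2 := ZER_val0 P hz hi (P.val_inv_of_not_mem hf) p.reverse
  rw [h1, P.val_zero, coeff_zero_reverse] at h2
  exact hl h2.symm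

end

theorem sZer : SZer.{u} := by
  classical
  intro K Ω _ _ _ _ _ _ q hq
  let _ : Algebra K[X] Ω := (ZER_phi K Ω).toAlgebra
  have ht : IsScalarTower K[X] (RatFunc K) Ω := IsScalarTower.of_algebraMap_eq fun _ => rfl
  have halg : IsAlgebraic K[X] q :=
    (IsFractionRing.isAlgebraic_iff K[X] (RatFunc K) Ω).2 (Algebra.IsAlgebraic.isAlgebraic q)
  obtain ⟨p, hp0, hp⟩ := halg.exists_nonzero_coeff_and_aeval_eq_zero
    (mem_nonZeroDivisors_of_ne_zero hq)
  have hp' : p.eval₂ (ZER_phi K Ω) q = 0 := hp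
  have hpne : p ≠ 0 := by
    rintro rfl
    simp at hp0
  refine ⟨p.leadingCoeff.roots.toFinset ∪ (p.coeff 0).roots.toFinset, fun P hz hB => ?_⟩
  rw [Finset.mem_union, not_or, Multiset.mem_toFinset, Multiset.mem_toFinset,
    mem_roots (leadingCoeff_ne_zero.2 hpne), mem_roots hp0] at hB
  have hf : q ∈ P.ring := ZER_fin P hz p hp' hB.1
  refine ⟨hf, fun h0 => hB.2 ?_⟩
  have h2 := ZER_val0 P hz hf h0 p
  rw [hp', P.val_zero] at h2
  exact h2.symm

theorem sGro : SGro.{u} := by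
  classical
  intro K Ω _ _ _ _ _ _ b Q hQ h
  have h' : Q.eval₂ (ZER_phi K Ω) b = 0 := h
  set n := Q.natDegree with hn
  have hn0 : n ≠ 0 := by
    intro h0
    have : Q = 1 := eq_one_of_monic_natDegree_zero hQ h0
    rw [this, eval₂_one] at h'
    exact one_ne_zero h'
  set m : ℕ := ∑ i ∈ Finset.range n, (Q.coeff i).natDegree with hm
  set κ : ℝ := 1 + ∑ i ∈ Finset.range n, ∑ j ∈ Finset.range ((Q.coeff i).natDegree + 1),
    ‖(Q.coeff i).coeff j‖ with hκ
  refine ⟨κ, m, fun P hz => ?_⟩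
  have hb : b ∈ P.ring := by
    apply ZER_fin P hz Q h'
    rw [hQ.leadingCoeff, eval_one]
    exact one_ne_zero
  refine ⟨hb, ?_⟩
  set a := P.val (zz K Ω) with ha
  set β := P.val b with hβ
  set M : ℝ := max 1 ‖a‖ with hM
  have hM1 : 1 ≤ M := le_max_left _ _
  have hMa : ‖a‖ ≤ M := le_max_right _ _
  have hMm : 1 ≤ M ^ m := one_le_pow₀ hM1
  -- coefficients
  have hc : ∑ i ∈ Finset.range n, ‖(Q.coeff i).eval a‖ ≤ (κ - 1) * M ^ m := by
    rw [hκ, add_sub_cancel_left, Finset.sum_mul]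
    refine Finset.sum_le_sum fun i hi => ?_
    rw [eval_eq_sum_range, Finset.sum_mul]
    refine (norm_sum_le _ _).trans (Finset.sum_le_sum fun j hj => ?_)
    rw [norm_mul, norm_pow]
    refine mul_le_mul_of_nonneg_left ?_ (norm_nonneg _)
    have hj' : j ≤ m := by
      have h1 : j ≤ (Q.coeff i).natDegree := Nat.lt_succ_iff.1 (Finset.mem_range.1 hj)
      exact h1.trans (Finset.single_le_sum (f := fun i => (Q.coeff i).natDegree)
        (fun _ _ => Nat.zero_le _) hi)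
    exact (pow_le_pow_left₀ (norm_nonneg _) hMa j).trans (pow_le_pow_right₀ hM1 hj')
  have hκ1 : 1 ≤ κ := by
    rw [hκ]
    have : 0 ≤ ∑ i ∈ Finset.range n, ∑ j ∈ Finset.range ((Q.coeff i).natDegree + 1),
      ‖(Q.coeff i).coeff j‖ := Finset.sum_nonneg fun _ _ => Finset.sum_nonneg fun _ _ => norm_nonneg _
    linarith
  by_cases hβ1 : ‖β‖ ≤ 1
  · calc ‖β‖ ≤ 1 := hβ1
      _ = 1 * 1 := (one_mul 1).symm
      _ ≤ κ * M ^ m := mul_le_mul hκ1 hMm zero_le_one (by linarith)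
  · push Not at hβ1
    have hv := (ZER_val P hz hb Q).2
    rw [h', P.val_zero, Finset.sum_range_succ, ← hn, ← ha, ← hβ] at hv
    have hlc : Q.coeff n = 1 := hQ.coeff_natDegree
    rw [hlc, eval_one, one_mul] at hv
    have e1 : β ^ n = - ∑ i ∈ Finset.range n, (Q.coeff i).eval a * β ^ i := by
      linear_combination -hv
    have e2 : ‖β‖ ^ n ≤ (∑ i ∈ Finset.range n, ‖(Q.coeff i).eval a‖) * ‖β‖ ^ (n - 1) := by
      rw [← norm_pow, e1, norm_neg, Finset.sum_mul]
      refine (norm_sum_le _ _).trans (Finset.sum_le_sum fun i hi => ?_)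
      rw [norm_mul, norm_pow]
      refine mul_le_mul_of_nonneg_left ?_ (norm_nonneg _)
      exact pow_le_pow_right₀ hβ1.le (Nat.le_sub_one_of_lt (Finset.mem_range.1 hi))
    have e3 : ‖β‖ ^ n = ‖β‖ * ‖β‖ ^ (n - 1) := by
      rw [← pow_succ', Nat.sub_add_cancel (Nat.one_le_iff_ne_zero.2 hn0)]
    rw [e3] at e2
    have hpos : 0 < ‖β‖ ^ (n - 1) := pow_pos (by linarith) _
    have e4 := le_of_mul_le_mul_right e2 hpos
    calc ‖β‖ ≤ (κ - 1) * M ^ m := e4.trans hc
      _ ≤ κ * M ^ m := mul_le_mul_of_nonneg_right (by linarith) (by linarith)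

end PUC
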