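import Pool.Agent.H77.PUC.StmtsE

/-! # PUC, module UNI: a derivation preserves the valuation ring if it does not lower the
uniformizer -/

universe u

namespace PUC

open Polynomial

section UNI
variable {K L : Type u} [Field K] [Field L] [Algebra K L] (P : Place K L)

/-- polynomials in `t` as elements of the valuation ring -/
noncomputable def UNI_psi {t : L} (ht : t ∈ P.ring) : K[X] →+* P.ring :=
  ((aeval t : K[X] →ₐ[K] L) : K[X] →+* L).codRestrict P.ring (fun c => P.aeval_mem ht c)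

theorem UNI_psi_coe {t : L} (ht : t ∈ P.ring) (c : K[X]) :
    ((UNI_psi P ht c : P.ring) : L) = aeval t c := rfl

theorem UNI_unit (x : P.ring) (h : P.val (x : L) ≠ 0) : IsUnit x := by
  have hx : (x : L) ≠ 0 := by
    intro h0
    rw [h0, P.val_zero] at h
    exact h rfl
  refine isUnit_iff_exists_inv.2 ⟨⟨(x : L)⁻¹, P.inv_mem_of_val x.2 h⟩, Subtype.ext ?_⟩
  exact mul_inv_cancel₀ hx

theorem UNI_dvd {t : L} (ht : IsUnif P t) (ht' : t ∈ P.ring) (x : P.ring)
    (h : P.val (x : L) = 0) : (⟨t, ht'⟩ : P.ring) ∣ x := by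
  obtain ⟨g, hg, he⟩ := ht.2 _ (P.nonunit_of_val_eq_zero x.2 h)
  exact ⟨⟨g, hg⟩, Subtype.ext (by rw [he]; exact mul_comm _ _)⟩

theorem UNI_notunit {t : L} (ht : IsUnif P t) (ht' : t ∈ P.ring) :
    ¬ IsUnit (⟨t, ht'⟩ : P.ring) := by
  intro h
  obtain ⟨y, hy⟩ := isUnit_iff_exists_inv.1 h
  have h1 : t * (y : L) = 1 := congrArg Subtype.val hy
  have h2 := P.val_mul ht' y.2
  rw [h1, P.val_one, P.val_eq_zero_of_nonunit ht.1, zero_mul] at h2
  exact one_ne_zero h2

theorem UNI_exp {t : L} (ht : IsUnif P t) (ht' : t ∈ P.ring) (n : ℕ) (x : P.ring) :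
    ∃ (q : K[X]) (g : P.ring), x = UNI_psi P ht' q + (⟨t, ht'⟩ : P.ring) ^ n * g := by
  induction n with
  | zero => exact ⟨0, x, by simp⟩
  | succ n ih =>
    obtain ⟨q, g, hg⟩ := ih
    set c := P.val (g : L) with hc
    have h1 : P.val ((g - UNI_psi P ht' (C c) : P.ring) : L) = 0 := by
      have e : ((g - UNI_psi P ht' (C c) : P.ring) : L) = g - algebraMap K L c := by
        rw [AddSubgroupClass.coe_sub, UNI_psi_coe, aeval_C]
      rw [e, P.val_sub g.2 (P.alg_mem c), P.val_algebraMap, ← hc, sub_self]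
    obtain ⟨g', hg'⟩ := UNI_dvd P ht ht' _ h1
    refine ⟨q + X ^ n * C c, g', ?_⟩
    have hX : UNI_psi P ht' X = (⟨t, ht'⟩ : P.ring) := Subtype.ext (by
      rw [UNI_psi_coe, aeval_X])
    rw [map_add, map_mul, map_pow, hX, hg]
    have h2 : g = UNI_psi P ht' (C c) + (⟨t, ht'⟩ : P.ring) * g' := by
      rw [← hg']
      ring
    conv_lhs => rw [h2]
    ring

theorem UNI_psi_X {t : L} (ht' : t ∈ P.ring) : UNI_psi P ht' X = (⟨t, ht'⟩ : P.ring) :=
  Subtype.ext (by rw [UNI_psi_coe, aeval_X])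

/-- a nonzero polynomial in `t` is a power of `t` times a unit -/
theorem UNI_pol {t : L} (ht : IsUnif P t) (ht' : t ∈ P.ring) (c : K[X]) (hc : c ≠ 0) :
    ∃ (j : ℕ) (c' : K[X]), c = X ^ j * c' ∧ IsUnit (UNI_psi P ht' c') := by
  obtain ⟨c', h1, h2⟩ := exists_eq_pow_rootMultiplicity_mul_and_not_dvd c hc 0
  rw [C_0, sub_zero] at h1 h2
  refine ⟨_, c', h1, UNI_unit P _ ?_⟩
  rw [UNI_psi_coe, P.val_aeval ht', P.val_eq_zero_of_nonunit ht.1]
  intro h0
  apply h2
  rw [X_dvd_iff, coeff_zero_eq_eval_zero, h0]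

theorem UNI_c {t : L} (ht0 : t ≠ 0) (ht : IsUnif P t) (ht' : t ∈ P.ring) (c : K[X]) (N : ℕ)
    (h : (⟨t, ht'⟩ : P.ring) ^ N ∣ UNI_psi P ht' c) : X ^ N ∣ c := by
  by_cases hc : c = 0
  · rw [hc]
    exact dvd_zero _
  · obtain ⟨j, c', h1, h2⟩ := UNI_pol P ht ht' c hc
    by_cases hj : N ≤ j
    · rw [h1]
      exact (pow_dvd_pow X hj).mul_right _
    · exfalso
      push Not at hj
      rw [h1, map_mul, map_pow, UNI_psi_X, ← Nat.add_sub_of_le hj.le, pow_add] at h
      have hT : (⟨t, ht'⟩ : P.ring) ^ j ≠ 0 := pow_ne_zero _ (fun h0 => ht0 (congrArg Subtype.val h0))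
      have h3 := (mul_dvd_mul_iff_left hT).1 h
      have h4 : (⟨t, ht'⟩ : P.ring) ∣ UNI_psi P ht' c' :=
        (dvd_pow_self _ (by omega)).trans h3
      exact UNI_notunit P ht ht' (isUnit_of_dvd_unit h4 h2)

/-- a nonzero element of the valuation ring that divides a power of `t` is a power of `t` times a
unit -/
theorem UNI_arch {t : L} (ht0 : t ≠ 0) (ht : IsUnif P t) (ht' : t ∈ P.ring) (f : P.ring) (k : ℕ)
    (h : f ∣ (⟨t, ht'⟩ : P.ring) ^ k) : ∃ (j : ℕ) (v : P.ring), IsUnit v ∧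
      f = (⟨t, ht'⟩ : P.ring) ^ j * v := by
  by_contra hno
  push Not at hno
  have key : ∀ n : ℕ, ∃ g : P.ring, f = (⟨t, ht'⟩ : P.ring) ^ n * g := by
    intro n
    induction n with
    | zero => exact ⟨f, by simp⟩
    | succ n ih =>
      obtain ⟨g, hg⟩ := ih
      have h1 : P.val (g : L) = 0 := by
        by_contra h0
        exact hno n g (UNI_unit P g h0) hg
      obtain ⟨g', hg'⟩ := UNI_dvd P ht ht' g h1
      exact ⟨g', by rw [hg, hg']; ring⟩
  obtain ⟨g, hg⟩ := key (k + 1)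
  have h2 : (⟨t, ht'⟩ : P.ring) ^ (k + 1) ∣ (⟨t, ht'⟩ : P.ring) ^ k :=
    (Dvd.intro g hg.symm).trans h
  have hT : (⟨t, ht'⟩ : P.ring) ^ k ≠ 0 := pow_ne_zero _ (fun h0 => ht0 (congrArg Subtype.val h0))
  rw [pow_succ] at h2
  have h3 : (⟨t, ht'⟩ : P.ring) ∣ 1 := by
    apply (mul_dvd_mul_iff_left hT).1
    rwa [mul_one]
  exact UNI_notunit P ht ht' (isUnit_of_dvd_one h3)

open scoped IntermediateField.algebraAdjoinAdjoin in
/-- algebraic elements -/
theorem UNI_alg {t : L} (ht' : t ∈ P.ring)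
    (halg : Algebra.IsAlgebraic (IntermediateField.adjoin K {t}) L) (f : P.ring) (hf : f ≠ 0) :
    ∃ M : P.ring[X], M.coeff 0 ≠ 0 ∧ (∀ i, ∃ c : K[X], M.coeff i = UNI_psi P ht' c) ∧
      M.eval f = 0 := by
  have h1 : IsAlgebraic (Algebra.adjoin K {t}) (f : L) :=
    (IsFractionRing.isAlgebraic_iff (Algebra.adjoin K {t}) (IntermediateField.adjoin K {t}) L).2
      (halg.isAlgebraic _)
  obtain ⟨q, hq0, hq⟩ := h1.exists_nonzero_coeff_and_aeval_eq_zero
    (mem_nonZeroDivisors_of_ne_zero (fun h0 => hf (Subtype.ext h0)))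
  have hA : ∀ a : Algebra.adjoin K {t}, ∃ c : K[X], (a : L) = aeval t c := by
    rintro ⟨a, ha⟩
    rw [Algebra.adjoin_singleton_eq_range_aeval] at ha
    obtain ⟨c, hc⟩ := ha
    exact ⟨c, hc.symm⟩
  have hA' : ∀ a : Algebra.adjoin K {t}, (a : L) ∈ P.ring := by
    intro a
    obtain ⟨c, hc⟩ := hA a
    rw [hc]
    exact P.aeval_mem ht' c
  let τ : Algebra.adjoin K {t} →+* P.ring :=
    ((Algebra.adjoin K {t}).val : Algebra.adjoin K {t} →+* L).codRestrict P.ring hA'
  have hτ : ∀ a, ((τ a : P.ring) : L) = a := fun a => rfl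
  refine ⟨q.map τ, ?_, ?_, ?_⟩
  · rw [coeff_map]
    intro h0
    apply hq0
    apply Subtype.ext
    have := congrArg Subtype.val h0
    rwa [hτ] at this
  · intro i
    obtain ⟨c, hc⟩ := hA (q.coeff i)
    refine ⟨c, Subtype.ext ?_⟩
    rw [coeff_map, hτ, hc, UNI_psi_coe]
  · apply Subtype.ext
    rw [eval_map]
    exact (hom_eval₂ q τ P.ring.subtype f).trans hq

/-- a separable relation -/
theorem UNI_sep [CharZero K] {t : L} (ht' : t ∈ P.ring) (f : P.ring) : ∀ (n : ℕ) (M : P.ring[X]),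
    M.natDegree ≤ n → M ≠ 0 → (∀ i, ∃ c : K[X], M.coeff i = UNI_psi P ht' c) → M.eval f = 0 →
    ∃ M : P.ring[X], (∀ i, ∃ c : K[X], M.coeff i = UNI_psi P ht' c) ∧ M.eval f = 0 ∧
      M.derivative.eval f ≠ 0 := by
  have hch : CharZero P.ring := by
    refine ⟨fun a b h => ?_⟩
    have h1 : ((a : ℕ) : L) = (b : ℕ) := congrArg Subtype.val h
    have h2 : algebraMap K L (a : K) = algebraMap K L (b : K) := by simpa using h1
    exact Nat.cast_injective ((algebraMap K L).injective h2)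
  intro n
  induction n with
  | zero =>
    intro M h1 h2 _ h4
    exfalso
    rw [eq_C_of_natDegree_le_zero h1, eval_C] at h4
    apply h2
    rw [eq_C_of_natDegree_le_zero h1, h4, C_0]
  | succ n ih =>
    intro M h1 h2 h3 h4
    by_cases h5 : M.derivative.eval f = 0
    · have hd : M.natDegree ≠ 0 := by
        intro h0
        rw [eq_C_of_natDegree_eq_zero h0, eval_C] at h4
        apply h2
        rw [eq_C_of_natDegree_eq_zero h0, h4, C_0]
      refine ih M.derivative ?_ ?_ ?_ h5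
      · have := natDegree_derivative_lt hd
        omega
      · intro h0
        exact hd (derivative_eq_zero.1 h0)
      · intro i
        obtain ⟨c, hc⟩ := h3 (i + 1)
        refine ⟨c * (i + 1 : K[X]), ?_⟩
        rw [coeff_derivative, hc, map_mul]
        simp
    · exact ⟨M, h3, h4, h5⟩

end UNI

theorem sUni : SUni.{u} := by
  intro K L _ _ _ _ P t ht0 ht halg D D' hD hDt
  have ht' : t ∈ P.ring := P.nonunits_mem ht.1
  set T : P.ring := ⟨t, ht'⟩ with hT
  have hTc : (T : L) = t := rfl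
  have hT0 : T ≠ 0 := fun h0 => ht0 (congrArg Subtype.val h0)
  -- derivative of polynomials in `t`
  have hpol : ∀ c : K[X], D' (aeval t c) ∈ P.ring := by
    intro c
    induction c using Polynomial.induction_on' with
    | add p q hp hq =>
      rw [map_add, map_add]
      exact P.ring.add_mem _ _ hp hq
    | monomial n a =>
      rw [aeval_monomial, Derivation.leibniz, Derivation.leibniz_pow, hD, smul_eq_mul, smul_eq_mul,
        smul_eq_mul]
      refine P.ring.add_mem _ _ (P.ring.mul_mem _ _ (P.alg_mem _) ?_)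
        (P.ring.mul_mem _ _ (P.pow_mem ht' n) (P.alg_mem _))
      exact nsmul_mem (P.ring.mul_mem _ _ (P.pow_mem ht' _) hDt) n
  let dl : K[X] → P.ring := fun c => ⟨D' (aeval t c), hpol c⟩
  -- polynomials divisible by `t ^ N`
  have hdv : ∀ (c : K[X]) (N : ℕ), T ^ (N + 1) ∣ UNI_psi P ht' c → T ^ N ∣ dl c := by
    intro c N h
    obtain ⟨w, hw⟩ := UNI_c P ht0 ht ht' c (N + 1) h
    refine ⟨((N + 1 : ℕ) : P.ring) * ⟨D' t, hDt⟩ * UNI_psi P ht' w + T * dl w, Subtype.ext ?_⟩
    change D' (aeval t c) = t ^ N * (((N + 1 : ℕ) : L) * D' t * aeval t w + t * D' (aeval t w))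
    rw [hw, map_mul, map_pow, aeval_X, Derivation.leibniz, Derivation.leibniz_pow]
    simp only [smul_eq_mul, nsmul_eq_mul, Nat.add_sub_cancel]
    ring
  intro h hh
  by_cases hh0 : h = 0
  · rw [hh0, map_zero]
    exact P.ring.zero_mem
  set H : P.ring := ⟨h, hh⟩ with hH
  obtain ⟨M0, h1, h2, h3⟩ := UNI_alg P ht' halg H (fun h0 => hh0 (congrArg Subtype.val h0))
  obtain ⟨M, hM, hMH, hMd⟩ := UNI_sep P ht' H M0.natDegree M0 le_rfl
    (by rintro rfl; exact h1 (by simp)) h2 h3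
  choose c hc using hM
  -- order of the derivative
  obtain ⟨k, v, hv, hkv⟩ : ∃ (k : ℕ) (v : P.ring), IsUnit v ∧
      M.derivative.eval H = T ^ k * v := by
    obtain ⟨M1, g1, g2, g3⟩ := UNI_alg P ht' halg (M.derivative.eval H) hMd
    obtain ⟨c1, hc1⟩ := g2 0
    have hc10 : c1 ≠ 0 := by
      rintro rfl
      rw [hc1, map_zero] at g1
      exact g1 rfl
    obtain ⟨j, c2, e1, e2⟩ := UNI_pol P ht ht' c1 hc10
    refine UNI_arch P ht0 ht ht' _ j ?_
    have g4 : M.derivative.eval H ∣ M1.coeff 0 := by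
      have g5 := g3
      rw [← divX_mul_X_add M1] at g5
      simp only [eval_add, eval_mul, eval_X, eval_C] at g5
      refine ⟨-(M1.divX.eval (M.derivative.eval H)), ?_⟩
      linear_combination g5
    rw [hc1, e1, map_mul, map_pow, UNI_psi_X] at g4
    exact (IsUnit.dvd_mul_right e2).1 g4
  set MD : P.ring[X] := ∑ i ∈ Finset.range (M.natDegree + 1), C (dl (c i)) * X ^ i with hMD
  have hder : ∀ x : P.ring, D' ((M.eval x : P.ring) : L) =
      ((MD.eval x : P.ring) : L) + ((M.derivative.eval x : P.ring) : L) * D' (x : L) := by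
    intro x
    have s1 : ((M.eval x : P.ring) : L) =
        ∑ i ∈ Finset.range (M.natDegree + 1), aeval t (c i) * (x : L) ^ i := by
      rw [eval_eq_sum_range]
      push_cast
      exact Finset.sum_congr rfl fun i _ => by rw [hc i, UNI_psi_coe]
    have s2 : ((MD.eval x : P.ring) : L) =
        ∑ i ∈ Finset.range (M.natDegree + 1), D' (aeval t (c i)) * (x : L) ^ i := by
      rw [hMD, eval_finsetSum]
      push_cast
      refine Finset.sum_congr rfl fun i _ => ?_
      rw [eval_mul, eval_C, eval_pow, eval_X]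
      rfl
    have s3 : ((M.derivative.eval x : P.ring) : L) =
        ∑ i ∈ Finset.range (M.natDegree + 1), aeval t (c i) * i * (x : L) ^ (i - 1) := by
      rw [derivative_eval, sum_over_range _ (by simp)]
      push_cast
      exact Finset.sum_congr rfl fun i _ => by rw [hc i, UNI_psi_coe]
    rw [s1, s2, s3, map_sum, Finset.sum_mul, ← Finset.sum_add_distrib]
    refine Finset.sum_congr rfl fun i _ => ?_
    rw [Derivation.leibniz, Derivation.leibniz_pow]
    simp only [smul_eq_mul, nsmul_eq_mul]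
    ring
  obtain ⟨q, G, hG⟩ := UNI_exp P ht ht' (k + 1) H
  rw [← hT] at hG
  set Q : P.ring := UNI_psi P ht' q with hQ
  have hHQ : T ^ (k + 1) ∣ H - Q := ⟨G, by rw [hG]; ring⟩
  have a1 : T ^ k ∣ M.derivative.eval Q := by
    have b1 : T ^ (k + 1) ∣ M.derivative.eval H - M.derivative.eval Q :=
      hHQ.trans (sub_dvd_eval_sub H Q M.derivative)
    have b2 : T ^ k ∣ M.derivative.eval H := ⟨v, hkv⟩
    have b3 := (pow_dvd_pow T (Nat.le_succ k)).trans b1
    have := dvd_sub b2 b3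
    rwa [sub_sub_cancel] at this
  have a2 : T ^ (2 * k + 1) ∣ M.eval Q := by
    obtain ⟨κ, hκ⟩ := binomExpansion M Q (T ^ (k + 1) * G)
    rw [← hG, hMH] at hκ
    obtain ⟨d, hd⟩ := a1
    refine ⟨-(d * G) - κ * T * G ^ 2, ?_⟩
    rw [hd] at hκ
    linear_combination -hκ
  set w : K[X] := ∑ i ∈ Finset.range (M.natDegree + 1), c i * q ^ i with hw
  have a3 : M.eval Q = UNI_psi P ht' w := by
    rw [eval_eq_sum_range, hw, map_sum]
    exact Finset.sum_congr rfl fun i _ => by rw [map_mul, map_pow, hc i]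
  have a4 : T ^ (2 * k) ∣ dl w := hdv w (2 * k) (by rw [← a3]; exact a2)
  have a5 : dl w = MD.eval Q + M.derivative.eval Q * dl q := by
    apply Subtype.ext
    have := hder Q
    rw [a3] at this
    exact this
  have a6 : T ^ k ∣ MD.eval Q := by
    have b1 : T ^ k ∣ dl w := (pow_dvd_pow T (by omega)).trans a4
    have b2 := dvd_sub b1 (a1.mul_right (dl q))
    rw [a5, add_sub_cancel_right] at b2
    exact b2
  have a7 : T ^ k ∣ MD.eval H := by
    have b1 : T ^ k ∣ MD.eval H - MD.eval Q :=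
      ((pow_dvd_pow T (Nat.le_succ k)).trans hHQ).trans (sub_dvd_eval_sub H Q MD)
    have := dvd_add b1 a6
    rwa [sub_add_cancel] at this
  obtain ⟨s, hs⟩ := a7
  obtain ⟨v', hv'⟩ := isUnit_iff_exists_inv.1 hv
  have a8 := hder H
  rw [hMH, hs, hkv] at a8
  have a9 : D' h = ((-(s * v') : P.ring) : L) := by
    have b1 : ((v : P.ring) : L) * (v' : L) = 1 := congrArg Subtype.val hv'
    have b2 : (t : L) ^ k ≠ 0 := pow_ne_zero _ ht0
    have b3 : (0 : L) = t ^ k * s + t ^ k * v * D' h := by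
      have b4 : D' ((0 : P.ring) : L) = 0 := map_zero D'
      rw [b4] at a8
      exact a8
    have b5 : (s : L) + v * D' h = 0 := by
      apply (mul_eq_zero.1 (?_ : t ^ k * ((s : L) + v * D' h) = 0)).resolve_left b2
      rw [b3]
      ring
    push_cast
    linear_combination (v' : L) * b5 - D' h * b1
  rw [a9]
  exact SetLike.coe_mem _

end PUC
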